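import Pool.Agent.Helper11.M3.GoalsA
import Pool.Agent.Helper57.PB.VAK
import Pool.Agent.Helper42.PB.SEL
import Pool.Agent.Helper40.RD.TRF
import Pool.Agent.Helper32.PP.BNOR
import Pool.Agent.Helper16.PP.PUPR

/-!
# Project M3 (MP_fc6b1e_nt): A_ZT1

If `J ≠ K` then the submodule `Zt` of the coordinates of the `S`-units of type `P` which are `p`-th
powers in `M₂` is not zero.
-/

set_option autoImplicit false
set_option linter.unusedSectionVars false

namespace Pool.Agent.Helper93.M3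

open NumberField Polynomial Module IsDedekindDomain
open Pool.Agent.Helper51.RP Pool.Agent.Helper42.RD Pool.Agent.Helper42.PP Pool.Agent.Helper42.PP1
open Pool.Agent.Helper42.PB Pool.Agent.Helper11.PP Pool.Agent.Helper76.PP Pool.Agent.Helper11.M3
open Pool.Agent.Helper57.PB (comm_of exists_ext nsig_of)
open Pool.Agent.Helper40.RS (bel)
open Pool.Agent.Helper40.RD (valW ordW bel_of_above)
open Pool.Agent.Helper32.PP (bel_bel mem_up)
open groupCohomology


/-- `P(δ) β` is a `p`-th power if `δ β = β^n c^p` and `P(n) = 0`. -/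
theorem pol_pw {p : ℕ} [hp : Fact p.Prime] {K M : Type} [Field K] [Field M] [Algebra K M]
    (P : (ZMod p)[X]) (δ : M ≃ₐ[K] M) (β c : Mˣ) (n : ℕ)
    (h : δ (β : M) = (β : M) ^ n * (c : M) ^ p) (hP : P.eval (n : ZMod p) = 0) :
    Pw p (pol P δ β) := by
  have key : ∀ j : ℕ, ∃ d : Mˣ, Units.map (((δ ^ j : M ≃ₐ[K] M) : M →+* M) : M →* M) β =
      β ^ (n ^ j) * d ^ p := by
    intro j
    induction j with
    | zero =>
      refine ⟨1, Units.ext ?_⟩
      show (1 : M ≃ₐ[K] M) (β : M) = _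
      simp
    | succ j ih =>
      obtain ⟨d, hd⟩ := ih
      refine ⟨d ^ n * Units.map (((δ ^ j : M ≃ₐ[K] M) : M →+* M) : M →* M) c, Units.ext ?_⟩
      have hd' : (δ ^ j) (β : M) = (β : M) ^ (n ^ j) * (d : M) ^ p := by
        have := congrArg Units.val hd
        rw [Units.val_mul, Units.val_pow_eq_pow_val, Units.val_pow_eq_pow_val] at this
        exact this
      show (δ ^ (j + 1)) (β : M) = _
      rw [Units.val_mul, Units.val_pow_eq_pow_val, Units.val_pow_eq_pow_val, Units.val_mul,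
        Units.val_pow_eq_pow_val, pow_succ]
      show (δ ^ j) (δ (β : M)) = (β : M) ^ n ^ (j + 1) * ((d : M) ^ n * (δ ^ j) (c : M)) ^ p
      rw [h, map_mul, map_pow, map_pow, hd']
      ring
  choose d hd using key
  obtain ⟨q, hq⟩ : p ∣ ∑ j ∈ P.support, n ^ j * (P.coeff j).val := by
    rw [← ZMod.natCast_eq_zero_iff, ← hP, Polynomial.eval_eq_sum, Polynomial.sum, Nat.cast_sum]
    refine Finset.sum_congr rfl fun j _ => ?_
    push_cast
    rw [ZMod.natCast_zmod_val]
    ring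
  refine ⟨β ^ q * ∏ j ∈ P.support, d j ^ (P.coeff j).val, ?_⟩
  unfold pol
  rw [MonoidHom.finsetProd_apply, mul_pow, ← pow_mul, mul_comm q p, ← hq, ← Finset.prod_pow,
    ← Finset.prod_pow_eq_pow_sum, ← Finset.prod_mul_distrib]
  refine Finset.prod_congr rfl fun j _ => ?_
  rw [MonoidHom.pow_apply, hd, mul_pow, ← pow_mul, ← pow_mul, ← pow_mul, mul_comm p]

section unr

variable {F E L : Type} [Field F] [NumberField F] [Field E] [NumberField E] [Field L]
  [NumberField L] [Algebra F E] [Algebra F L] [Algebra E L] [IsScalarTower F E L]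

/-- Unramified primes in a tower (`unr_tower` of `Helper44/PB/VLA.lean`). -/
theorem unr_tow (W : HeightOneSpectrum (𝓞 L))
    (h : ∀ x : F, ordv W (algebraMap F L x) = ordv (bel F W) x) (x : E) :
    ordv W (algebraMap E L x) = ordv (bel E W) x := by
  obtain ⟨π, hπ⟩ : ∃ x : F, ordv (bel F W) x = 1 := by
    obtain ⟨x, hx⟩ := (bel F W).valuation_exists_uniformizer F
    refine ⟨x, ?_⟩
    unfold ordv
    rw [hx]
    simp
  have hb : bel F (bel E W) = bel F W := bel_bel F W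
  have h1 : ∀ x : F, ordv W (algebraMap F L x) =
      ((bel E W).asIdeal.ramificationIdx' W.asIdeal : ℤ) *
        (((bel F (bel E W)).asIdeal.ramificationIdx' (bel E W).asIdeal : ℤ) *
          ordv (bel F W) x) := by
    intro x
    rw [IsScalarTower.algebraMap_apply F E L, ordW, ordW, hb]
  have h2 := h1 π
  rw [h π, hπ, mul_one] at h2
  have h3 : (((bel E W).asIdeal.ramificationIdx' W.asIdeal : ℕ) : ℤ) = 1 := by
    have h4 : 1 = (bel E W).asIdeal.ramificationIdx' W.asIdeal *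
        (bel F (bel E W)).asIdeal.ramificationIdx' (bel E W).asIdeal := by
      exact_mod_cast h2
    have h5 := Nat.eq_one_of_mul_eq_one_right h4.symm
    exact_mod_cast h5
  rw [ordW, h3, one_mul]

theorem finite_ordv (x : F) (hx : x ≠ 0) :
    {v : HeightOneSpectrum (𝓞 F) | ordv v x ≠ 0}.Finite := by
  have h1 := HeightOneSpectrum.Support.finite (R := 𝓞 F) x
  have h2 := HeightOneSpectrum.Support.finite (R := 𝓞 F) x⁻¹
  refine (h1.union h2).subset ?_
  intro v hv
  have hv' : v.valuation F x ≠ 1 := fun h => hv ((ordv_eq_zero_iff v hx).2 h)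
  rcases lt_or_gt_of_ne hv' with h | h
  · right
    show 1 < v.valuation F x⁻¹
    rw [map_inv₀]
    exact (one_lt_inv₀ (zero_lt_iff.2 ((Valuation.ne_zero_iff _).2 hx))).2 h
  · left
    exact h

end unr

section main

variable {p : ℕ} [hp : Fact p.Prime] {K M K₁ M₁ J M₂ : Type} [Field K] [NumberField K] [Field M]
  [NumberField M] [Field K₁] [NumberField K₁] [Field M₁] [NumberField M₁] [Field J]
  [NumberField J] [Field M₂] [NumberField M₂] [Algebra K M] [Algebra K K₁] [Algebra K M₁]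
  [Algebra M M₁] [Algebra K₁ M₁] [Algebra K J] [Algebra K M₂] [Algebra M M₂] [Algebra K₁ M₂]
  [Algebra M₁ M₂] [Algebra J M₂] {ε : K₁} {δ : M ≃ₐ[K] M} {P : (ZMod p)[X]} {a₀ : M₂ˣ}

/-- The subextension of degree `p` of `M₂/M₁` is generated by a `p`-th root `w` of `b ∈ M`, on which
`δ` acts as `n` up to `p`-th powers. -/
theorem exists_w (hB : SitB p K M K₁ M₁ J M₂ ε δ P a₀) (hO : OmS p M₁ ε δ P)
    (hJ : finrank K J ≠ 1) [Fact (Irreducible P)] :
    ∃ (w : M₂) (b c : M) (n : ℕ), b ≠ 0 ∧ c ≠ 0 ∧ w ^ p = algebraMap M M₂ b ∧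
      (∀ m : M, algebraMap M M₂ m ≠ w) ∧ δ b = b ^ n * c ^ p ∧ P.eval (n : ZMod p) = 0 ∧
      ∃ e : M, IsPrimitiveRoot e p := by
  have hp0 : p ≠ 0 := hp.out.ne_zero
  have := hB.t1
  have := hB.t2
  have := hB.t3
  have := hB.t4
  have := hB.gJ
  have := hB.gM₂
  have := hB.sit.st1
  have := hB.sit.st2
  have := hB.sit.gM
  have := hB.sit.gK
  have := hB.sit.gMK
  have := hB.cycJ
  have tM : IsScalarTower K M M₂ := tow_M hB
  have tK : IsScalarTower K K₁ M₂ := tow_K hB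
  have hgal : IsGalois M₁ M₂ := IsGalois.tower_top_of_isGalois K M₁ M₂
  have hgal' : IsGalois M M₁ := IsGalois.tower_top_of_isGalois K M M₁
  -- `M → M₁` is surjective
  obtain ⟨ε₀, hε₀⟩ := hO.eps
  have hsurj : ∀ x : M₁, ∃ y : M, algebraMap M M₁ y = x := by
    intro x
    refine (IsGalois.mem_range_algebraMap_iff_fixed (F := M) x).2 fun g => ?_
    have h1 : g.restrictScalars K = 1 := by
      apply hO.gen
      rw [← hε₀]
      exact g.commutes ε₀
    exact congrArg (fun f : M₁ ≃ₐ[K] M₁ => f x) h1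
  -- the root of unity
  obtain ⟨e, he⟩ : ∃ e : M₂, e = algebraMap K₁ M₂ ε := ⟨_, rfl⟩
  have hprim : IsPrimitiveRoot e p := by
    rw [he]
    exact hB.sit.prim.map_of_injective (algebraMap K₁ M₂).injective
  have he1 : e = algebraMap M₁ M₂ (algebraMap K₁ M₁ ε) := by
    rw [he, IsScalarTower.algebraMap_apply K₁ M₁ M₂]
  have he0 : e ≠ 0 := hprim.ne_zero hp0
  -- the group
  have hinj : Function.Injective ((AlgEquiv.restrictNormalHom (F := K) (K₁ := M₂) J).comp
      (AlgEquiv.restrictScalarsHom K : (M₂ ≃ₐ[M₁] M₂) →* (M₂ ≃ₐ[K] M₂))) := by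
    rw [injective_iff_map_eq_one]
    intro g hg
    have h1 : g.restrictScalars K = 1 := by
      apply hB.lin₂
      · intro x
        exact g.commutes x
      · intro x
        have h2 := AlgEquiv.restrictNormal_commutes (g.restrictScalars K) J x
        have h3 : (g.restrictScalars K).restrictNormal J = 1 := hg
        rw [h3] at h2
        exact h2.symm
    ext x
    exact congrArg (fun f : M₂ ≃ₐ[K] M₂ => f x) h1
  have hcyc : IsCyclic (M₂ ≃ₐ[M₁] M₂) := isCyclic_of_injective _ hinj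
  obtain ⟨g₀, hg₀⟩ := hcyc.exists_generator
  -- `p` divides the degree
  have hpd : p ∣ finrank M₁ M₂ := by
    obtain ⟨l, hl⟩ := hB.degJ
    have hl0 : l ≠ 0 := by
      rintro rfl
      exact hJ (by rw [hl, pow_zero])
    have h1 : p ∣ finrank K M₂ := by
      rw [← Module.finrank_mul_finrank K J M₂, hl]
      exact (dvd_pow_self p hl0).mul_right _
    rw [← Module.finrank_mul_finrank K M₁ M₂] at h1
    have h2 : (finrank K M₁).Coprime p := by
      rw [← Module.finrank_mul_finrank K M M₁]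
      exact Nat.Coprime.mul_left hB.sit.copm hB.sit.c1
    exact (h2.symm).dvd_of_dvd_mul_left h1
  -- Hilbert 90
  obtain ⟨w₁, hw₁⟩ := exists_div_of_norm_eq_one hg₀ (x := e⁻¹) (by
    obtain ⟨q, hq⟩ := hpd
    rw [he1, ← map_inv₀, Algebra.norm_algebraMap, hq, pow_mul, inv_pow, ← map_pow,
      hB.sit.prim.pow_eq_one, map_one, inv_one, one_pow])
  obtain ⟨w, hw⟩ : ∃ w : M₂, w = (w₁ : M₂) := ⟨_, rfl⟩
  have hw0 : w ≠ 0 := by rw [hw]; exact w₁.ne_zero
  rw [← hw] at hw₁
  have hgw0 : g₀ w ≠ 0 := (_root_.map_ne_zero _).2 hw0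
  have hgw : g₀ w = e * w := by
    rw [div_eq_iff hgw0] at hw₁
    calc g₀ w = e * (e⁻¹ * g₀ w) := by rw [← mul_assoc, mul_inv_cancel₀ he0, one_mul]
      _ = e * w := by rw [← hw₁]
  have hge : g₀ e = e := by
    rw [he1]
    exact g₀.commutes _
  -- the elements fixed by `g₀`
  have hfix : ∀ y : M₂, g₀ y = y → ∃ m : M, algebraMap M M₂ m = y := by
    intro y hy
    obtain ⟨x, hx⟩ := (IsGalois.mem_range_algebraMap_iff_fixed (F := M₁) y).2 fun g => by
      have h1 : Subgroup.zpowers g₀ ≤ MulAction.stabilizer (M₂ ≃ₐ[M₁] M₂) y := by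
        rw [Subgroup.zpowers_le]
        exact hy
      exact h1 (hg₀ g)
    obtain ⟨m, hm⟩ := hsurj x
    exact ⟨m, by rw [IsScalarTower.algebraMap_apply M M₁ M₂, hm, hx]⟩
  obtain ⟨b, hb⟩ := hfix (w ^ p) (by
    rw [map_pow, hgw, mul_pow, hprim.pow_eq_one, one_mul])
  -- the automorphism `τ`
  obtain ⟨τ, hτM, hτJ⟩ := exists_ext hB M hB.sit.copm δ
  obtain ⟨n, -, hn⟩ := hprim.eq_pow_of_pow_eq_one (ξ := τ e) (by
    rw [← map_pow, hprim.pow_eq_one, map_one])
  have hcomm := comm_of hB τ (g₀.restrictScalars K) hτJ fun x => g₀.commutes x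
  have hτw0 : τ w ≠ 0 := (_root_.map_ne_zero _).2 hw0
  obtain ⟨c, hc⟩ := hfix (τ w / w ^ n) (by
    have h1 : τ (g₀ w) = g₀ (τ w) := congrArg (fun f : M₂ ≃ₐ[K] M₂ => f w) hcomm
    rw [map_div₀, ← h1, hgw, map_mul, map_pow, hgw, mul_pow, ← hn,
      mul_div_mul_left _ _ (pow_ne_zero n he0)])
  have hb0 : b ≠ 0 := by
    rintro rfl
    rw [map_zero] at hb
    exact pow_ne_zero p hw0 hb.symm
  have hc0 : c ≠ 0 := by
    rintro rfl
    rw [map_zero] at hc
    exact div_ne_zero hτw0 (pow_ne_zero n hw0) hc.symm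
  have hτc : τ w = w ^ n * algebraMap M M₂ c := by
    rw [hc, mul_div_cancel₀ _ (pow_ne_zero n hw0)]
  refine ⟨w, b, c, n, hb0, hc0, hb.symm, ?_, ?_, ?_, ?_⟩
  · rintro m rfl
    rw [IsScalarTower.algebraMap_apply M M₁ M₂, AlgEquiv.commutes] at hgw
    have h1 : e = 1 := by
      have h2 : e * algebraMap M₁ M₂ (algebraMap M M₁ m) = 1 * algebraMap M₁ M₂ (algebraMap M M₁ m) := by
        rw [one_mul]
        exact hgw.symm
      refine mul_right_cancel₀ ?_ h2
      rw [← IsScalarTower.algebraMap_apply M M₁ M₂]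
      exact hw0
    exact hprim.ne_one hp.out.one_lt h1
  · apply (algebraMap M M₂).injective
    rw [← hτM, hb, map_pow, hτc, map_mul, map_pow, map_pow, mul_pow, hb, ← pow_mul, ← pow_mul,
      mul_comm n p]
  · -- the eigenvalue
    let g' : M₁ ≃ₐ[K] M₁ := τ.restrictNormal M₁
    have hg' : ∀ x : M₁, algebraMap M₁ M₂ (g' x) = τ (algebraMap M₁ M₂ x) := fun x =>
      AlgEquiv.restrictNormal_commutes τ M₁ x
    let σ : K₁ ≃ₐ[K] K₁ := g'.restrictNormal K₁
    have hσ : ∀ x : K₁, algebraMap K₁ M₁ (σ x) = g' (algebraMap K₁ M₁ x) := fun x =>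
      AlgEquiv.restrictNormal_commutes g' K₁ x
    have h1 := hO.rel g' 1 σ (fun y => by
      apply (algebraMap M₁ M₂).injective
      rw [hg', ← IsScalarTower.algebraMap_apply M M₁ M₂, hτM, pow_one,
        ← IsScalarTower.algebraMap_apply M M₁ M₂]) fun y => (hσ y).symm
    have hσn : σ ε = ε ^ n := by
      apply (algebraMap K₁ M₂).injective
      rw [map_pow, ← he, hn, he1, ← hg', ← hσ, ← IsScalarTower.algebraMap_apply K₁ M₁ M₂]
    rw [nsig_of hB.sit.prim hp0 hσn, pow_one] at h1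
    have h2 : Polynomial.aeval (AdjoinRoot.root P) P = 0 := by
      rw [AdjoinRoot.aeval_eq, AdjoinRoot.mk_self]
    rw [h1, Polynomial.aeval_algebraMap_apply, _root_.map_eq_zero] at h2
    rw [← h2]
    rfl
  · refine ⟨ε₀, IsPrimitiveRoot.of_map_of_injective (f := algebraMap M M₁) ?_
      (algebraMap M M₁).injective⟩
    rw [hε₀]
    exact hB.sit.prim.map_of_injective (algebraMap K₁ M₁).injective

end main

theorem a_zt1 : Pool.Agent.Helper11.M3.A_ZT1 := by
  intro p hp K M K₁ M₁ J M₂ _ _ _ _ _ _ _ _ _ _ _ _ _ _ _ _ _ _ _ _ _ _ _ ε δ P hP a₀ hB hO B D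
    hJ hbot
  have := hB.gM₂
  have tM : IsScalarTower K M M₂ := tow_M hB
  have hgal : IsGalois M M₂ := IsGalois.tower_top_of_isGalois K M M₂
  obtain ⟨w, b, c, n, hb0, hc0, hwb, hwM, hδ, hPn, e, he⟩ := exists_w hB hO hJ
  have hp0 : p ≠ 0 := hp.out.ne_zero
  have hpz : (p : ℤ) ≠ 0 := by exact_mod_cast hp0
  have hw0 : w ≠ 0 := by
    rintro rfl
    rw [zero_pow hp0] at hwb
    exact hb0 ((_root_.map_eq_zero _).1 hwb.symm)
  -- the divisor of `b` is divisible by `p` outside `S`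
  have hdiv : ∀ v ∉ up M B.S, (p : ℤ) ∣ ordv v b := by
    intro v hv
    obtain ⟨-, -, -, -, -, h, -⟩ := Pool.Agent.Helper16.PP.p_upr p M M₂ ∅
    obtain ⟨W, hW⟩ := h v
    have h1 : bel M W = v := bel_of_above hW
    have h2 : bel K W ∉ B.S := by
      rw [mem_up, ← h1, bel_bel] at hv
      exact hv
    have h3 := unr_tow (F := K) (E := M) W (fun x => D.unr _ h2 W rfl x) b
    rw [h1] at h3
    rw [← h3, ← hwb, ordv_pow]
    exact dvd_mul_right _ _
  obtain ⟨z, hz⟩ := B.prM (Finsupp.ofSupportFinite (fun v => ordv v b / p)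
    ((finite_ordv b hb0).subset fun v hv h => hv (by
      show ordv v b / p = 0
      rw [h, Int.zero_ediv])))
  obtain ⟨β, hβ⟩ : ∃ β : Mˣ, (β : M) = b := ⟨Units.mk0 b hb0, rfl⟩
  obtain ⟨γ, hγ⟩ : ∃ γ : Mˣ, (γ : M) = c := ⟨Units.mk0 c hc0, rfl⟩
  obtain ⟨t₀, ht₀⟩ : Pw p (pol P δ β) := pol_pw P δ β γ n (by rw [hβ, hγ, hδ]) hPn
  obtain ⟨y, hy⟩ : ∃ y : Mˣ, y = β * (z ^ p)⁻¹ := ⟨_, rfl⟩
  have hβy : β = y * z ^ p := by rw [hy, inv_mul_cancel_right]
  have hbv : b = (y : M) * (z : M) ^ p := by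
    rw [← hβ, hβy, Units.val_mul, Units.val_pow_eq_pow_val]
  have hyS : y ∈ (up M B.S).unit M := by
    intro v hv
    show v.valuation M (y : M) = 1
    rw [← ordv_eq_zero_iff v y.ne_zero]
    have h1 : ordv v b = ordv v (y : M) + p * ordv v (z : M) := by
      rw [hbv, ordv_mul v y.ne_zero (pow_ne_zero p z.ne_zero), ordv_pow]
    have h2 : ordv v (z : M) = ordv v b / p := hz v hv
    rw [h2, Int.mul_ediv_cancel' (hdiv v hv)] at h1
    linarith
  have hyP : Pw p (pol P δ y) := by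
    refine ⟨t₀ * (pol P δ z)⁻¹, ?_⟩
    rw [hy, map_mul, map_inv, map_pow, ht₀, mul_pow, inv_pow]
  have hz0 : algebraMap M M₂ (z : M) ≠ 0 := (_root_.map_ne_zero _).2 z.ne_zero
  have hyw : (w / algebraMap M M₂ (z : M)) ^ p = algebraMap M M₂ (y : M) := by
    rw [div_pow, hwb, hbv, map_mul, map_pow, mul_div_cancel_right₀ _ (pow_ne_zero p hz0)]
  have hmem : (fun i => B.rho i y) ∈ Zt B M₂ :=
    Submodule.subset_span ⟨y, hyS, hyP, ⟨_, hyw⟩, fun i => rfl⟩
  rw [hbot, Submodule.mem_bot] at hmem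
  obtain ⟨t, ht⟩ := B.rho0 y hyS hyP (fun i => congrFun hmem i)
  have htz0 : algebraMap M M₂ ((t : M) * z) ≠ 0 :=
    (_root_.map_ne_zero _).2 (mul_ne_zero t.ne_zero z.ne_zero)
  have h1 : w ^ p = (algebraMap M M₂ ((t : M) * z)) ^ p := by
    rw [hwb, hbv, ht, Units.val_pow_eq_pow_val, ← mul_pow, map_pow]
  obtain ⟨k, -, hk⟩ := (he.map_of_injective (algebraMap M M₂).injective).eq_pow_of_pow_eq_one
    (ξ := w / algebraMap M M₂ ((t : M) * z)) (by
      rw [div_pow, h1, div_self (pow_ne_zero p htz0)])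
  exact hwM (e ^ k * ((t : M) * z)) (by
    rw [map_mul, map_pow, hk, div_mul_cancel₀ _ htz0])

end Pool.Agent.Helper93.M3
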